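import Mathlib

set_option autoImplicit false

namespace Pool.Agent.TH413.QS

/-- The eliminated quadratic in `lam` after dividing by `e - 1`. -/
def FF (e z l : ℤ) : ℤ :=
  (e ^ 2 * z ^ 3 - e * (3 * e - 2) * z ^ 2 + (2 * e - 1) * z - 1) * l ^ 2
    - (z + 1) * (e ^ 2 * z ^ 3 - (3 * e ^ 2 - e) * z ^ 2 + (3 * e - 1) * z - 1) * l
    - (z + 1) * z * (e - 1) * (e * z - 1)

/-- Elimination of `V`. -/
lemma elim (e z l V : ℤ) (he : 2 ≤ e) (hz : 1 ≤ z)
    (h1 : (z + 1) * V * ((e * z) ^ 2 + e * z - 1 - V) = (e * z) ^ 2 * ((e * z) ^ 2 - 1))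
    (h2 : l * ((e * z - 1) ^ 2 - V * (z - 1)) = (e * z - 1) * (e * z - z)) :
    FF e z l = 0 := by
  have hu : 0 < e * z - 1 := by nlinarith
  have hw : l * (z - 1) * V = (e * z - 1) * (l * (e * z - 1) - (e * z - z)) := by
    linear_combination (-1) * h2
  have key : (e * z - 1) * z * (e - 1) * FF e z l = 0 := by
    have hA : (z + 1) * (l * (z - 1) * V) * (l * (z - 1) * ((e * z) ^ 2 + e * z - 1) - l * (z - 1) * V)
        = l ^ 2 * (z - 1) ^ 2 * ((e * z) ^ 2 * ((e * z) ^ 2 - 1)) := by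
      linear_combination (l ^ 2 * (z - 1) ^ 2) * h1
    rw [hw] at hA
    unfold FF
    linear_combination hA
  have hne : (e * z - 1) * z * (e - 1) ≠ 0 := by
    have : 0 < (e * z - 1) * z * (e - 1) := by
      apply mul_pos (mul_pos hu (by linarith)) (by linarith)
    exact this.ne'
  rcases mul_eq_zero.1 key with h | h
  · exact absurd h hne
  · exact h

/-- leading coefficient -/
def A2 (e z : ℤ) : ℤ := e ^ 2 * z ^ 3 - e * (3 * e - 2) * z ^ 2 + (2 * e - 1) * z - 1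
/-- middle coefficient -/
def A1 (e z : ℤ) : ℤ :=
  - ((z + 1) * (e ^ 2 * z ^ 3 - (3 * e ^ 2 - e) * z ^ 2 + (3 * e - 1) * z - 1))
/-- constant coefficient -/
def A0 (e z : ℤ) : ℤ := - ((z + 1) * z * (e - 1) * (e * z - 1))

lemma FF_eq (e z l : ℤ) : FF e z l = A2 e z * l ^ 2 + A1 e z * l + A0 e z := by
  unfold FF A2 A1 A0; ring

lemma A2_pos (e z : ℤ) (he : 2 ≤ e) (hz : 3 ≤ z) : 0 < A2 e z := by
  obtain ⟨p, hp, rfl⟩ : ∃ p : ℤ, 0 ≤ p ∧ e = 2 + p := ⟨e - 2, by omega, by omega⟩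
  obtain ⟨q, hq, rfl⟩ : ∃ q : ℤ, 0 ≤ q ∧ z = 3 + q := ⟨z - 3, by omega, by omega⟩
  have : A2 (2 + p) (3 + q) = 1*p^2*q^3 + 6*p^2*q^2 + 9*p^2*q^1 + 4*p^1*q^3 + 26*p^1*q^2
      + 50*p^1*q^1 + 24*p^1 + 4*q^3 + 28*q^2 + 63*q^1 + 44 := by
    unfold A2; ring
  rw [this]; positivity

lemma A0_neg (e z : ℤ) (he : 2 ≤ e) (hz : 1 ≤ z) : A0 e z < 0 := by
  have hu : 0 < e * z - 1 := by nlinarith
  have : 0 < (z + 1) * z * (e - 1) * (e * z - 1) := by
    apply mul_pos (mul_pos (mul_pos (by linarith) (by linarith)) (by linarith)) hu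
  unfold A0; linarith

/-- below a point where the quadratic is negative it is negative -/
lemma FF_neg_below (e z m l : ℤ) (he : 2 ≤ e) (hz : 3 ≤ z) (hm : 0 < m) (hF : FF e z m < 0)
    (hl0 : 0 ≤ l) (hl : l ≤ m) : FF e z l < 0 := by
  have h2 := A2_pos e z he hz
  have h0 := A0_neg e z he (by linarith)
  have hid : m * FF e z l = l * FF e z m + (m - l) * A0 e z - A2 e z * l * m * (m - l) := by
    rw [FF_eq, FF_eq]; ring
  have h3 : 0 ≤ A2 e z * l * m * (m - l) := by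
    apply mul_nonneg (mul_nonneg (mul_nonneg h2.le hl0) hm.le) (by linarith)
  have h4 : l * FF e z m ≤ 0 := mul_nonpos_of_nonneg_of_nonpos hl0 hF.le
  have h5 : (m - l) * A0 e z ≤ 0 := mul_nonpos_of_nonneg_of_nonpos (by linarith) h0.le
  by_contra hcon
  push Not at hcon
  have h6 : 0 ≤ m * FF e z l := mul_nonneg hm.le hcon
  have h7 : l * FF e z m = 0 := by linarith
  have h8 : (m - l) * A0 e z = 0 := by linarith
  rcases mul_eq_zero.1 h8 with h | h
  · rcases mul_eq_zero.1 h7 with h' | h'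
    · omega
    · omega
  · omega

/-- above a point where the quadratic is positive it is positive -/
lemma FF_pos_above (e z m l : ℤ) (he : 2 ≤ e) (hz : 3 ≤ z) (hm : 0 < m) (hF : 0 < FF e z m)
    (hl : m ≤ l) : 0 < FF e z l := by
  have h2 := A2_pos e z he hz
  have h0 := A0_neg e z he (by linarith)
  have h1 : 0 < A2 e z * m + A1 e z := by
    have : 0 < m * (A2 e z * m + A1 e z) := by
      have := FF_eq e z m
      nlinarith
    exact (pos_iff_pos_of_mul_pos this).1 hm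
  have hid : FF e z l = FF e z m + (l - m) * (A2 e z * m + A1 e z) + (l - m) * (A2 e z * l) := by
    rw [FF_eq, FF_eq]; ring
  have h3 : 0 ≤ (l - m) * (A2 e z * m + A1 e z) := mul_nonneg (by linarith) h1.le
  have h4 : 0 ≤ (l - m) * (A2 e z * l) :=
    mul_nonneg (by linarith) (mul_nonneg h2.le (by linarith))
  linarith

lemma FF_z_neg (e z : ℤ) (he : 2 ≤ e) (hz : 4 ≤ z) : FF e z z < 0 := by
  obtain ⟨p, hp, rfl⟩ : ∃ p : ℤ, 0 ≤ p ∧ e = 2 + p := ⟨e - 2, by omega, by omega⟩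
  obtain ⟨q, hq, rfl⟩ : ∃ q : ℤ, 0 ≤ q ∧ z = 4 + q := ⟨z - 4, by omega, by omega⟩
  have : FF (2 + p) (4 + q) (4 + q) = -(1*p^2*q^4 + 14*p^2*q^3 + 73*p^2*q^2 + 168*p^2*q^1
      + 144*p^2 + 3*p^1*q^4 + 41*p^1*q^3 + 209*p^1*q^2 + 471*p^1*q^1 + 396*p^1 + 2*q^4 + 26*q^3
      + 126*q^2 + 270*q^1 + 216) := by
    unfold FF; ring
  rw [this]
  have : 0 < (1*p^2*q^4 + 14*p^2*q^3 + 73*p^2*q^2 + 168*p^2*q^1
      + 144*p^2 + 3*p^1*q^4 + 41*p^1*q^3 + 209*p^1*q^2 + 471*p^1*q^1 + 396*p^1 + 2*q^4 + 26*q^3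
      + 126*q^2 + 270*q^1 + 216) := by positivity
  linarith

lemma FF_z1 (e z : ℤ) : FF e z (z + 1) = (z + 1) * z * (e * z * (z - e + 1) - 1) := by
  unfold FF; ring

lemma FF_z2_pos (e z : ℤ) (he : 2 ≤ e) (hz : 4 ≤ z) : 0 < FF e z (z + 2) := by
  obtain ⟨p, hp, rfl⟩ : ∃ p : ℤ, 0 ≤ p ∧ e = 2 + p := ⟨e - 2, by omega, by omega⟩
  obtain ⟨q, hq, rfl⟩ : ∃ q : ℤ, 0 ≤ q ∧ z = 4 + q := ⟨z - 4, by omega, by omega⟩
  have : FF (2 + p) (4 + q) (4 + q + 2) = 1*p^2*q^4 + 14*p^2*q^3 + 65*p^2*q^2 + 104*p^2*q^1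
      + 16*p^2 + 5*p^1*q^4 + 77*p^1*q^3 + 423*p^1*q^2 + 971*p^1*q^1 + 764*p^1 + 6*q^4 + 98*q^3
      + 584*q^2 + 1506*q^1 + 1414 := by
    unfold FF; ring
  rw [this]; positivity

/-- For `z ≥ 4` and `e ≥ 2` the quadratic has no root that is a positive integer. -/
lemma FF_ne (e z l : ℤ) (he : 2 ≤ e) (hz : 4 ≤ z) (hl : 1 ≤ l) : FF e z l ≠ 0 := by
  have hz1 := FF_z1 e z
  by_cases hez : e ≤ z
  · have hpos : 0 < FF e z (z + 1) := by
      rw [hz1]
      have h1 : 1 ≤ z - e + 1 := by omega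
      have h2 : 2 ≤ e * z * (z - e + 1) := by
        have : 2 * 4 ≤ e * z := mul_le_mul he hz (by norm_num) (by linarith)
        nlinarith
      exact mul_pos (mul_pos (by linarith) (by linarith)) (by linarith)
    rcases le_or_gt l z with h | h
    · exact (FF_neg_below e z z l he (by linarith) (by linarith) (FF_z_neg e z he hz)
        (by linarith) h).ne
    · exact (FF_pos_above e z (z + 1) l he (by linarith) (by linarith) hpos (by omega)).ne'
  · have hneg : FF e z (z + 1) < 0 := by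
      rw [hz1]
      have h1 : z - e + 1 ≤ 0 := by omega
      have h2 : e * z * (z - e + 1) ≤ 0 :=
        mul_nonpos_of_nonneg_of_nonpos (by nlinarith) h1
      exact mul_neg_of_pos_of_neg (mul_pos (by linarith) (by linarith)) (by linarith)
    rcases le_or_gt l (z + 1) with h | h
    · exact (FF_neg_below e z (z + 1) l he (by linarith) (by linarith) hneg
        (by linarith) h).ne
    · exact (FF_pos_above e z (z + 2) l he (by linarith) (by linarith) (FF_z2_pos e z he hz)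
        (by omega)).ne'

/-- The case `z = 3`. -/
lemma FF_three (e l : ℤ) (he : 2 ≤ e) (hl : 1 ≤ l) : FF e 3 l ≠ 0 := by
  intro h
  obtain ⟨m, hm⟩ : ∃ m : ℤ, m = 6 * e - 1 := ⟨_, rfl⟩
  have hm11 : 11 ≤ m := by omega
  -- the equation in terms of `m`
  have h1 : 16 * m * l ^ 2 - 16 * (3 * m - 1) * l = 4 * (m - 1) * (m - 5) := by
    unfold FF at h
    rw [hm]
    linear_combination (4 : ℤ) * h
  obtain ⟨j, hj⟩ : ∃ j : ℤ, 4 * l = j * m + 5 := ⟨m - 6 - 4 * l ^ 2 + 12 * l, by linarith⟩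
  have h2 : m * (j ^ 2 * m ^ 2 - 2 * j * m + 4 * j - 4 * m - 11) = 0 := by
    have h3 : m * (4 * l) ^ 2 - 4 * (3 * m - 1) * (4 * l) = 4 * (m - 1) * (m - 5) := by
      linear_combination h1
    rw [hj] at h3
    linear_combination h3
  rcases mul_eq_zero.1 h2 with h3 | h3
  · omega
  · have hj0 : 0 ≤ j := by
      by_contra hc
      have : j ≤ -1 := by omega
      nlinarith
    have hj1 : j ≠ 0 := by
      rintro rfl
      omega
    rcases eq_or_ne j 1 with rfl | hj2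
    · have h5 : (m - 7) * (m + 1) = 0 := by linear_combination h3
      rcases mul_eq_zero.1 h5 with h6 | h6 <;> omega
    · have hj3 : 2 ≤ j := by omega
      obtain ⟨a, ha, rfl⟩ : ∃ a : ℤ, 0 ≤ a ∧ j = 2 + a := ⟨j - 2, by omega, by omega⟩
      obtain ⟨c, hc, rfl⟩ : ∃ c : ℤ, 0 ≤ c ∧ m = 11 + c := ⟨m - 11, by omega, by omega⟩
      have h6 : (2 + a) ^ 2 * (11 + c) ^ 2 - 2 * (2 + a) * (11 + c) + 4 * (2 + a) - 4 * (11 + c) - 11
          = a ^ 2 * c ^ 2 + 22 * a ^ 2 * c + 121 * a ^ 2 + 4 * a * c ^ 2 + 86 * a * c + 466 * a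
            + 4 * c ^ 2 + 80 * c + 393 := by ring
      have h7 : 0 < a ^ 2 * c ^ 2 + 22 * a ^ 2 * c + 121 * a ^ 2 + 4 * a * c ^ 2 + 86 * a * c
            + 466 * a + 4 * c ^ 2 + 80 * c + 393 := by positivity
      omega

/-- The case `z = 2`. -/
lemma FF_two (e l : ℤ) (he : 2 ≤ e) (hl : 1 ≤ l) (h : FF e 2 l = 0) :
    e = 3 ∧ (l = 4 ∨ l = 5) := by
  have h1 : (4 * e ^ 2 - 12 * e + 3) * l ^ 2 - (12 * e ^ 2 - 30 * e + 9) * l
      + (12 * e ^ 2 - 18 * e + 6) = 0 := by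
    unfold FF at h
    linear_combination (-1 : ℤ) * h
  rcases lt_or_ge e 4 with he4 | he4
  · have : e = 2 ∨ e = 3 := by omega
    rcases this with rfl | rfl
    · exfalso
      have h2 : l * (5 * l - 3) = 18 := by linear_combination (-1 : ℤ) * h1
      have : l < 3 := by nlinarith
      have : l = 1 ∨ l = 2 := by omega
      rcases this with rfl | rfl <;> omega
    · have h2 : (l - 4) * (l - 5) = 0 := by linarith [h1]
      refine ⟨rfl, ?_⟩
      rcases mul_eq_zero.1 h2 with h3 | h3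
      · left; omega
      · right; omega
  · exfalso
    obtain ⟨p, hp, rfl⟩ : ∃ p : ℤ, 0 ≤ p ∧ e = 4 + p := ⟨e - 4, by omega, by omega⟩
    have ha : 0 < 4 * (4 + p) ^ 2 - 12 * (4 + p) + 3 := by nlinarith
    have hd : 0 < 4 * (4 * (4 + p) ^ 2 - 12 * (4 + p) + 3) * (12 * (4 + p) ^ 2 - 18 * (4 + p) + 6)
        - (12 * (4 + p) ^ 2 - 30 * (4 + p) + 9) ^ 2 := by
      have : 4 * (4 * (4 + p) ^ 2 - 12 * (4 + p) + 3) * (12 * (4 + p) ^ 2 - 18 * (4 + p) + 6)
        - (12 * (4 + p) ^ 2 - 30 * (4 + p) + 9) ^ 2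
          = 48 * p ^ 4 + 624 * p ^ 3 + 2868 * p ^ 2 + 5316 * p + 3015 := by ring
      rw [this]; positivity
    have h3 : (2 * (4 * (4 + p) ^ 2 - 12 * (4 + p) + 3) * l
        - (12 * (4 + p) ^ 2 - 30 * (4 + p) + 9)) ^ 2
        + (4 * (4 * (4 + p) ^ 2 - 12 * (4 + p) + 3) * (12 * (4 + p) ^ 2 - 18 * (4 + p) + 6)
        - (12 * (4 + p) ^ 2 - 30 * (4 + p) + 9) ^ 2) = 0 := by
      linear_combination (4 * (4 * (4 + p) ^ 2 - 12 * (4 + p) + 3)) * h1
    nlinarith [sq_nonneg (2 * (4 * (4 + p) ^ 2 - 12 * (4 + p) + 3) * l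
        - (12 * (4 + p) ^ 2 - 30 * (4 + p) + 9))]

/-- The arithmetic of quasi-symmetric 3-designs with smaller intersection number 1. -/
lemma arith (k y v lam l2 r b a c : ℤ) (hk : 3 ≤ k) (hkv : k < v) (hy : 1 < y) (hyk : y < k)
    (hlam : 1 ≤ lam)
    (h0 : 1 + a + c = b) (h1 : k + a + c * y = k * r)
    (h2 : k * (k - 1) + c * (y * (y - 1)) = k * (k - 1) * l2)
    (h3 : k * (k - 1) * (k - 2) + c * (y * (y - 1) * (y - 2)) = k * (k - 1) * (k - 2) * lam)
    (d2 : l2 * (k - 2) = lam * (v - 2)) (d1 : r * (k - 1) = l2 * (v - 1)) (d0 : b * k = r * v)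
    (hdiv : (y - 1) ∣ (k - 1)) :
    (k = 7 ∧ y = 3 ∧ ((lam = 4 ∧ v = 22) ∨ (lam = 5 ∧ v = 23))) ∨
      (k = 3 ∧ y = 2 ∧ lam = 1 ∧ (v = 4 ∨ v = 5)) := by
  -- second equation
  have hE2 : lam * ((k - 2) ^ 2 - (v - 2) * (y - 2)) = (k - 2) * (k - y) := by
    have e1 : (k * (k - 1)) * ((l2 - 1) * (y - 2) - (k - 2) * (lam - 1)) = 0 := by
      linear_combination h3 - (y - 2) * h2
    have e2 : (l2 - 1) * (y - 2) - (k - 2) * (lam - 1) = 0 := by
      rcases mul_eq_zero.1 e1 with h | h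
      · exfalso
        have : 0 < k * (k - 1) := mul_pos (by linarith) (by linarith)
        omega
      · exact h
    linear_combination (-(k - 2)) * e2 + (y - 2) * d2
  -- first equation
  have hE1 : y * (v - 2) * (k ^ 2 - k - 1 - (v - 2)) = k * (k - 1) ^ 2 * (k - 2) := by
    have e1 : c * (y - 1) = k * (r - 1) - (b - 1) := by linear_combination h1 - h0
    have e2 : k * (k - 1) * (l2 - 1) = y * (k * (r - 1) - (b - 1)) := by
      rw [← e1]; linear_combination (-1 : ℤ) * h2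
    have e3 : l2 * (k ^ 2 * (k - 1) ^ 2 - y * (v - 1) * (k ^ 2 - v))
        = k * (k - 1) ^ 2 * (k - y) := by
      have : k * (k - 1) * (k * (k - 1) * (l2 - 1)) =
          k * (k - 1) * (y * (k * (r - 1) - (b - 1))) := by rw [e2]
      linear_combination this + (y * (k ^ 2) - y * v) * d1 - (y * (k - 1)) * d0
    have e4 : lam * ((v - 2) * (k ^ 2 * (k - 1) ^ 2 - y * (v - 1) * (k ^ 2 - v))
        - k * (k - 1) ^ 2 * ((k - 2) ^ 2 - (v - 2) * (y - 2))) = 0 := by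
      linear_combination (k - 2) * e3 - (k ^ 2 * (k - 1) ^ 2 - y * (v - 1) * (k ^ 2 - v)) * d2
        - (k * (k - 1) ^ 2) * hE2
    have e5 : (v - k) * (y * (v - 2) * (k ^ 2 - k - 1 - (v - 2)) - k * (k - 1) ^ 2 * (k - 2)) = 0 := by
      rcases mul_eq_zero.1 e4 with h | h
      · omega
      · linear_combination (-1 : ℤ) * h
    rcases mul_eq_zero.1 e5 with h | h
    · omega
    · linarith
  obtain ⟨e, he⟩ := hdiv
  obtain ⟨z, hz⟩ : ∃ z : ℤ, z = y - 1 := ⟨_, rfl⟩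
  have hz1 : 1 ≤ z := by omega
  have hke : k = e * z + 1 := by rw [hz]; linarith
  have hyz : y = z + 1 := by omega
  have he2 : 2 ≤ e := by
    by_contra hc
    have : e ≤ 1 := by omega
    have : e * z ≤ z := by nlinarith
    omega
  have hF : FF e z lam = 0 := by
    apply elim e z lam (v - 2) he2 hz1
    · rw [hke, hyz] at hE1
      linear_combination hE1
    · rw [hke, hyz] at hE2
      linear_combination hE2
  rcases le_or_gt 4 z with hz4 | hz4
  · exact absurd hF (FF_ne e z lam he2 hz4 hlam)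
  · have : z = 1 ∨ z = 2 ∨ z = 3 := by omega
    rcases this with rfl | rfl | rfl
    · -- z = 1
      right
      have hl : lam = 1 := by
        have e1 : (k - 2) ^ 2 * (lam - 1) = 0 := by
          rw [hyz] at hE2
          linear_combination hE2
        rcases mul_eq_zero.1 e1 with h | h
        · exfalso
          have : 0 < (k - 2) ^ 2 := by nlinarith
          omega
        · omega
      have hk3 : k = 3 := by
        by_contra hc
        have hk4 : 4 ≤ k := by omega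
        rw [hyz] at hE1
        obtain ⟨p, hp, rfl⟩ : ∃ p : ℤ, 0 ≤ p ∧ k = 4 + p := ⟨k - 4, by omega, by omega⟩
        have h5 : (4 + p) * ((4 + p) - 1) ^ 2 * ((4 + p) - 2) * 2 ≤ ((4 + p) ^ 2 - (4 + p) - 1) ^ 2 := by
          nlinarith [sq_nonneg (2 * (v - 2) - ((4 + p) ^ 2 - (4 + p) - 1))]
        have h6 : (4 + p) * ((4 + p) - 1) ^ 2 * ((4 + p) - 2) * 2 - ((4 + p) ^ 2 - (4 + p) - 1) ^ 2
            = p ^ 4 + 10 * p ^ 3 + 35 * p ^ 2 + 50 * p + 23 := by ring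
        have h7 : 0 < p ^ 4 + 10 * p ^ 3 + 35 * p ^ 2 + 50 * p + 23 := by positivity
        omega
      refine ⟨hk3, by omega, hl, ?_⟩
      subst hk3
      rw [hyz] at hE1
      have h5 : (v - 4) * (v - 5) = 0 := by linarith
      rcases mul_eq_zero.1 h5 with h | h <;> omega
    · left
      obtain ⟨rfl, hl⟩ := FF_two e lam he2 hlam hF
      have hk7 : k = 7 := by omega
      refine ⟨hk7, by omega, ?_⟩
      subst hk7
      rw [hyz] at hE2
      rcases hl with rfl | rfl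
      · left; exact ⟨rfl, by omega⟩
      · right; exact ⟨rfl, by omega⟩
    · exact absurd hF (FF_three e lam he2 hlam)

end Pool.Agent.TH413.QS
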