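import Pool.Agent.TH413.QS.Count

set_option autoImplicit false

/-! # The complement of a 3-design -/

namespace Pool.Agent.TH413.QS

open Finset

variable {P : Type*} [Fintype P] [DecidableEq P]

/-- the number of blocks disjoint from three points -/
theorem disj_count (B : Finset (Finset P)) (k lam : ℕ) (hk : 3 ≤ k) (hB : ∀ b ∈ B, b.card = k)
    (h3 : ∀ T : Finset P, T.card = 3 → deg B T = lam) :
    ∃ m : ℕ, ∀ T : Finset P, T.card = 3 → (B.filter (fun b => Disjoint T b)).card = m := by
  classical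
  obtain ⟨r2, h2⟩ : ∃ r2 : ℕ, ∀ S : Finset P, S.card = 2 → deg B S = r2 := by
    refine ⟨lam * (Fintype.card P - 2) / (k - 2), fun S hS => ?_⟩
    have := step_down B k 2 lam hB h3 S hS
    exact (Nat.div_eq_of_eq_mul_left (by omega) this.symm).symm
  obtain ⟨r1, h1⟩ : ∃ r1 : ℕ, ∀ S : Finset P, S.card = 1 → deg B S = r1 := by
    refine ⟨r2 * (Fintype.card P - 1) / (k - 1), fun S hS => ?_⟩
    have := step_down B k 1 r2 hB h2 S hS
    exact (Nat.div_eq_of_eq_mul_left (by omega) this.symm).symm
  refine ⟨((B.card : ℤ) - 3 * r1 + 3 * r2 - lam).toNat, fun T hT => ?_⟩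
  obtain ⟨a, b, c, hab, hac, hbc, rfl⟩ := card_eq_three.mp hT
  have key : ((B.filter (fun s => Disjoint {a, b, c} s)).card : ℤ) =
      (B.card : ℤ) - 3 * r1 + 3 * r2 - lam := by
    have e1 : ∀ x : P, ∑ s ∈ B, (if x ∈ s then (1 : ℤ) else 0) = r1 := by
      intro x
      have := h1 {x} (card_singleton x)
      rw [← this, deg_eq_sum]
      push_cast
      refine sum_congr rfl fun s _ => ?_
      simp only [singleton_subset_iff]
    have e2 : ∀ x y : P, x ≠ y →
        ∑ s ∈ B, (if x ∈ s then (1 : ℤ) else 0) * (if y ∈ s then (1 : ℤ) else 0) = r2 := by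
      intro x y hxy
      have := h2 {x, y} (card_pair hxy)
      rw [← this, deg_eq_sum]
      push_cast
      refine sum_congr rfl fun s _ => ?_
      simp only [insert_subset_iff, singleton_subset_iff]
      by_cases h : x ∈ s <;> by_cases h' : y ∈ s <;> simp [h, h']
    have e3 : ∑ s ∈ B, (if a ∈ s then (1 : ℤ) else 0) * (if b ∈ s then (1 : ℤ) else 0) *
        (if c ∈ s then (1 : ℤ) else 0) = lam := by
      have := h3 {a, b, c} hT
      rw [← this, deg_eq_sum]
      push_cast
      refine sum_congr rfl fun s _ => ?_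
      simp only [insert_subset_iff, singleton_subset_iff]
      by_cases h : a ∈ s <;> by_cases h' : b ∈ s <;> by_cases h'' : c ∈ s <;> simp [h, h', h'']
    have e0 : ((B.filter (fun s => Disjoint {a, b, c} s)).card : ℤ) =
        ∑ s ∈ B, (1 - (if a ∈ s then (1 : ℤ) else 0)) * (1 - (if b ∈ s then (1 : ℤ) else 0)) *
          (1 - (if c ∈ s then (1 : ℤ) else 0)) := by
      rw [card_filter]
      push_cast
      refine sum_congr rfl fun s _ => ?_
      simp only [disjoint_insert_left, disjoint_singleton_left]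
      by_cases h : a ∈ s <;> by_cases h' : b ∈ s <;> by_cases h'' : c ∈ s <;> simp [h, h', h'']
    rw [e0]
    have e4 : ∀ s ∈ B, (1 - (if a ∈ s then (1 : ℤ) else 0)) *
        (1 - (if b ∈ s then (1 : ℤ) else 0)) * (1 - (if c ∈ s then (1 : ℤ) else 0)) =
        1 - (if a ∈ s then (1 : ℤ) else 0) - (if b ∈ s then (1 : ℤ) else 0) -
        (if c ∈ s then (1 : ℤ) else 0) +
        (if a ∈ s then (1 : ℤ) else 0) * (if b ∈ s then (1 : ℤ) else 0) +
        (if a ∈ s then (1 : ℤ) else 0) * (if c ∈ s then (1 : ℤ) else 0) +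
        (if b ∈ s then (1 : ℤ) else 0) * (if c ∈ s then (1 : ℤ) else 0) -
        (if a ∈ s then (1 : ℤ) else 0) * (if b ∈ s then (1 : ℤ) else 0) *
          (if c ∈ s then (1 : ℤ) else 0) := fun s _ => by ring
    rw [sum_congr rfl e4]
    simp only [sum_sub_distrib, sum_add_distrib]
    rw [e1 a, e1 b, e1 c, e2 a b hab, e2 a c hac, e2 b c hbc, e3]
    simp only [sum_const, nsmul_eq_mul, mul_one]
    ring
  omega

/-- the blocks of the complement -/
def cmp (B : Finset (Finset P)) : Finset (Finset P) := B.image (fun b => bᶜ)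

theorem cmp_design (B : Finset (Finset P)) (k lam : ℕ) (hk : 3 ≤ k)
    (hB : ∀ b ∈ B, b.card = k) (h3 : ∀ T : Finset P, T.card = 3 → deg B T = lam) :
    (∀ b ∈ cmp B, b.card = Fintype.card P - k) ∧
    ∃ m : ℕ, ∀ T : Finset P, T.card = 3 → ((cmp B).filter (fun b => T ⊆ b)).card = m := by
  classical
  constructor
  · intro b hb
    obtain ⟨c, hc, rfl⟩ := mem_image.mp hb
    rw [card_compl, hB c hc]
  · obtain ⟨m, hm⟩ := disj_count B k lam hk hB h3
    refine ⟨m, fun T hT => ?_⟩
    rw [← hm T hT]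
    have : (cmp B).filter (fun b => T ⊆ b) =
        (B.filter (fun b => Disjoint T b)).image (fun b => bᶜ) := by
      ext s
      unfold cmp
      simp only [mem_filter, mem_image]
      constructor
      · rintro ⟨⟨b, hb, rfl⟩, h⟩
        exact ⟨b, ⟨hb, subset_compl_iff_disjoint_right.mp h⟩, rfl⟩
      · rintro ⟨b, ⟨hb, h⟩, rfl⟩
        exact ⟨⟨b, hb, rfl⟩, subset_compl_iff_disjoint_right.mpr h⟩
    rw [this, card_image_of_injective _ compl_injective]

/-- intersections of the complements -/
theorem card_compl_inter (b c : Finset P) {k : ℕ} (hb : b.card = k) (hc : c.card = k) :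
    (bᶜ ∩ cᶜ).card + 2 * k = Fintype.card P + (b ∩ c).card := by
  have h1 := card_union_add_card_inter b c
  have h2 : bᶜ ∩ cᶜ = (b ∪ c)ᶜ := by rw [compl_union]
  rw [h2, card_compl]
  have h3 : (b ∪ c).card ≤ Fintype.card P := card_le_univ _
  omega

end Pool.Agent.TH413.QS
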