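import Mathlib

set_option autoImplicit false

namespace Pool.Agent.TH413.QS

open Finset

variable {P : Type*} [Fintype P] [DecidableEq P]

/-- number of blocks of `B` containing `T` -/
def deg (B : Finset (Finset P)) (T : Finset P) : ℕ := (B.filter (fun b => T ⊆ b)).card

lemma deg_eq_sum (B : Finset (Finset P)) (T : Finset P) :
    deg B T = ∑ b ∈ B, if T ⊆ b then 1 else 0 := by
  unfold deg; rw [Finset.card_filter]

lemma sum_deg (B : Finset (Finset P)) (b0 : Finset P) (j : ℕ) :
    ∑ T ∈ b0.powersetCard j, deg B T = ∑ b ∈ B, (b0 ∩ b).card.choose j := by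
  simp_rw [deg_eq_sum]
  rw [Finset.sum_comm]
  refine Finset.sum_congr rfl fun b _ => ?_
  rw [← Finset.card_filter, ← Finset.card_powersetCard]
  congr 1
  ext T
  simp only [mem_filter, mem_powersetCard, subset_inter_iff]
  tauto

lemma sum_deg_insert (B : Finset (Finset P)) (T : Finset P) :
    ∑ p ∈ univ \ T, deg B (insert p T) = ∑ b ∈ B.filter (fun b => T ⊆ b), (b \ T).card := by
  simp_rw [deg_eq_sum]
  rw [Finset.sum_comm, Finset.sum_filter]
  refine Finset.sum_congr rfl fun b _ => ?_
  by_cases h : T ⊆ b
  · rw [if_pos h, ← Finset.card_filter]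
    congr 1
    ext p
    simp only [mem_filter, mem_sdiff, mem_univ, true_and, insert_subset_iff]
    tauto
  · rw [if_neg h]
    apply Finset.sum_eq_zero
    intro p _
    rw [if_neg]
    intro h'
    exact h ((insert_subset_iff.1 h').2)

/-- stepping down: if every `(t+1)`-set is in `lam` blocks -/
lemma step_down (B : Finset (Finset P)) (k t lam : ℕ) (hB : ∀ b ∈ B, b.card = k)
    (h : ∀ T : Finset P, T.card = t + 1 → deg B T = lam) (S : Finset P) (hS : S.card = t) :
    deg B S * (k - t) = lam * (Fintype.card P - t) := by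
  have h1 := sum_deg_insert B S
  have h2 : ∑ p ∈ univ \ S, deg B (insert p S) = ∑ p ∈ univ \ S, lam := by
    refine Finset.sum_congr rfl fun p hp => h _ ?_
    rw [card_insert_of_notMem (by simpa using hp), hS]
  have h3 : ∑ b ∈ B.filter (fun b => S ⊆ b), (b \ S).card
      = ∑ b ∈ B.filter (fun b => S ⊆ b), (k - t) := by
    refine Finset.sum_congr rfl fun b hb => ?_
    rw [mem_filter] at hb
    rw [card_sdiff_of_subset hb.2, hB b hb.1, hS]
  rw [h2, h3, sum_const, sum_const, card_sdiff_of_subset (subset_univ S), hS, card_univ,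
    smul_eq_mul, smul_eq_mul] at h1
  unfold deg
  linarith

end Pool.Agent.TH413.QS
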