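import Mathlib

set_option autoImplicit false

namespace Pool.Agent.TH413.QS

open Finset

variable {P : Type*} [Fintype P] [DecidableEq P]

/-- The Goethals-Seidel divisibility condition: `y - x` divides `k - x`. -/
lemma dvd_sub (B : Finset (Finset P)) (k x y : ℕ) (hk : 0 < k)
    (hB : ∀ b ∈ B, b.card = k)
    (hint : ∀ b₁ ∈ B, ∀ b₂ ∈ B, b₁ ≠ b₂ → (b₁ ∩ b₂).card = x ∨ (b₁ ∩ b₂).card = y)
    (hcard : Fintype.card P < B.card) : ((y : ℤ) - x) ∣ ((k : ℤ) - x) := by
  classical
  -- incidence map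
  let f : (B → ℤ) →ₗ[ℤ] (P → ℤ) :=
    { toFun := fun w p => ∑ b : B, if p ∈ b.1 then w b else 0
      map_add' := by
        intro w w'
        funext p
        simp only [Pi.add_apply, ← Finset.sum_add_distrib]
        refine Finset.sum_congr rfl fun b _ => ?_
        split_ifs <;> simp
      map_smul' := by
        intro c w
        funext p
        simp only [Pi.smul_apply, smul_eq_mul, RingHom.id_apply, Finset.mul_sum]
        refine Finset.sum_congr rfl fun b _ => ?_
        split_ifs <;> simp }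
  have hni : ¬ Function.Injective f := by
    intro hi
    have := card_le_of_injective ℤ f hi
    rw [Fintype.card_coe] at this
    omega
  obtain ⟨w, hw0, hw⟩ : ∃ w : B → ℤ, w ≠ 0 ∧ f w = 0 := by
    rw [← LinearMap.ker_eq_bot, Submodule.eq_bot_iff] at hni
    push Not at hni
    obtain ⟨w, h1, h2⟩ := hni
    exact ⟨w, h2, h1⟩
  have hex : ∃ b : B, w b ≠ 0 := by
    by_contra hc
    push Not at hc
    exact hw0 (funext hc)
  obtain ⟨bb, hbb⟩ := hex
  obtain ⟨g, hg, hg1⟩ := Finset.extract_gcd (s := (univ : Finset B)) w ⟨bb, mem_univ _⟩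
  have hd0 : (univ : Finset B).gcd w ≠ 0 := by
    intro h
    exact hbb ((Finset.gcd_eq_zero_iff.1 h) bb (mem_univ _))
  have hfg : ∀ p : P, ∑ b : B, (if p ∈ b.1 then g b else 0) = 0 := by
    intro p
    have h1 : ∑ b : B, (if p ∈ b.1 then w b else 0) = 0 := congrFun hw p
    have h2 : ∑ b : B, (if p ∈ b.1 then w b else 0)
        = (univ : Finset B).gcd w * ∑ b : B, (if p ∈ b.1 then g b else 0) := by
      rw [Finset.mul_sum]
      refine Finset.sum_congr rfl fun b _ => ?_
      split_ifs
      · exact hg b (mem_univ _)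
      · simp
    rw [h2] at h1
    exact (mul_eq_zero.1 h1).resolve_left hd0
  -- sums over a subset of points
  have hsub : ∀ S : Finset P, ∑ b : B, g b * ((S ∩ b.1).card : ℤ) = 0 := by
    intro S
    have h1 : ∑ p ∈ S, ∑ b : B, (if p ∈ b.1 then g b else 0) = 0 :=
      Finset.sum_eq_zero fun p _ => hfg p
    rw [Finset.sum_comm] at h1
    rw [← h1]
    refine Finset.sum_congr rfl fun b _ => ?_
    rw [← Finset.sum_filter, Finset.sum_const, nsmul_eq_mul, Finset.filter_mem_eq_inter]
    ring
  have hsum : ∑ b : B, g b = 0 := by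
    have h1 := hsub univ
    simp only [univ_inter] at h1
    have h2 : ∑ b : B, g b * ((b.1).card : ℤ) = (∑ b : B, g b) * k := by
      rw [Finset.sum_mul]
      refine Finset.sum_congr rfl fun b _ => ?_
      rw [hB b.1 b.2]
    rw [h2] at h1
    exact (mul_eq_zero.1 h1).resolve_right (by positivity)
  have hdv : ∀ b : B, ((y : ℤ) - x) ∣ ((k : ℤ) - x) * g b := by
    intro b
    have h1 := hsub b.1
    rw [← Finset.add_sum_erase _ _ (mem_univ b)] at h1 hsum
    rw [inter_self, hB b.1 b.2] at h1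
    have h2 : ∑ b' ∈ univ.erase b, g b' * ((b.1 ∩ b'.1).card : ℤ)
        = ∑ b' ∈ univ.erase b, (g b' * x) + ∑ b' ∈ univ.erase b, g b' * (((b.1 ∩ b'.1).card : ℤ) - x) := by
      rw [← Finset.sum_add_distrib]
      refine Finset.sum_congr rfl fun b' _ => ?_
      ring
    rw [h2, ← Finset.sum_mul] at h1
    have h3 : ((k : ℤ) - x) * g b
        = - ∑ b' ∈ univ.erase b, g b' * (((b.1 ∩ b'.1).card : ℤ) - x) := by
      linear_combination h1 - (x : ℤ) * hsum
    rw [h3, dvd_neg]
    apply Finset.dvd_sum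
    intro b' hb'
    apply Dvd.dvd.mul_left
    have hne : b.1 ≠ b'.1 := by
      intro h
      exact (mem_erase.1 hb').1 (Subtype.ext h.symm)
    rcases hint b.1 b.2 b'.1 b'.2 hne with h | h
    · rw [h]; simp
    · rw [h]
  have h4 : ((y : ℤ) - x) ∣ (univ : Finset B).gcd (fun b => ((k : ℤ) - x) * g b) :=
    Finset.dvd_gcd fun b _ => hdv b
  rw [Finset.gcd_mul_left, hg1, mul_one] at h4
  exact (dvd_normalize_iff).1 h4

end Pool.Agent.TH413.QS
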