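import Pool.Agent.TH413.QS.Witt

set_option autoImplicit false
set_option linter.unusedSectionVars false

namespace Pool.Agent.TH413.QS

open Finset

variable {P : Type*} [Fintype P] [DecidableEq P]

/-- the extension of `B` by the hexads -/
def ext (B : Finset (Finset P)) : Finset (Finset (Option P)) :=
  B.image (fun b => b.map Function.Embedding.some) ∪ (hexads B).image (fun H => insertNone H)

lemma inj_some : Function.Injective (fun b : Finset P => b.map Function.Embedding.some) :=
  Finset.map_injective _

lemma inj_none : Function.Injective (fun b : Finset P => (insertNone b : Finset (Option P))) :=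
  insertNone.injective

lemma deg_ext (B : Finset (Finset P)) (T : Finset (Option P)) :
    deg (ext B) T = (B.filter (fun b => T ⊆ b.map Function.Embedding.some)).card
      + ((hexads B).filter (fun H => T ⊆ insertNone H)).card := by
  unfold deg ext
  rw [filter_union, card_union_of_disjoint]
  · rw [filter_image, filter_image, card_image_of_injective _ inj_some,
      card_image_of_injective _ inj_none]
  · rw [Finset.disjoint_left]
    intro c hc hc'
    rw [mem_filter, mem_image] at hc hc'
    obtain ⟨⟨b, -, rfl⟩, -⟩ := hc
    obtain ⟨⟨H, -, h⟩, -⟩ := hc'
    have h1 : (none : Option P) ∈ insertNone H := by simp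
    rw [h] at h1
    simp at h1

/-- the extension is a Steiner system `S(4,7,23)` -/
lemma ext_design (B : Finset (Finset P)) (hP : Fintype.card P = 22)
    (hB : ∀ b ∈ B, b.card = 7) (h3 : ∀ T : Finset P, T.card = 3 → deg B T = 4)
    (hint : ∀ b₁ ∈ B, ∀ b₂ ∈ B, b₁ ≠ b₂ → (b₁ ∩ b₂).card = 1 ∨ (b₁ ∩ b₂).card = 3) :
    (∀ c ∈ ext B, c.card = 7) ∧ ∀ T : Finset (Option P), T.card = 4 → deg (ext B) T = 1 := by
  have hint' : ∀ b₁ ∈ B, ∀ b₂ ∈ B, b₁ ≠ b₂ → (b₁ ∩ b₂).card ≤ 3 := by
    intro b₁ h₁ b₂ h₂ hne
    rcases hint b₁ h₁ b₂ h₂ hne with h | h <;> omega
  have hhex := hexads_design B hP hB h3 hint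
  constructor
  · intro c hc
    unfold ext at hc
    rw [mem_union, mem_image, mem_image] at hc
    rcases hc with ⟨b, hb, rfl⟩ | ⟨H, hH, rfl⟩
    · rw [card_map, hB b hb]
    · rw [card_insertNone]
      unfold hexads at hH
      rw [mem_filter, mem_powersetCard] at hH
      omega
  · intro T hT
    rw [deg_ext]
    by_cases hn : (none : Option P) ∈ T
    · -- `none ∈ T`
      obtain ⟨S, rfl⟩ : ∃ S : Finset P, T = insertNone S := by
        refine ⟨eraseNone T, ?_⟩
        rw [insertNone_eraseNone, insert_eq_of_mem hn]
      rw [card_insertNone] at hT
      have hS : S.card = 3 := by omega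
      have h1 : B.filter (fun b => insertNone S ⊆ b.map Function.Embedding.some) = ∅ := by
        rw [filter_eq_empty_iff]
        intro b _ h
        have := h hn
        simp at this
      have h2 : (hexads B).filter (fun H => (insertNone S : Finset (Option P)) ⊆ insertNone H)
          = (hexads B).filter (fun H => S ⊆ H) := by
        apply filter_congr
        intro H _
        exact insertNone.le_iff_le
      rw [h1, h2]
      have := hhex S hS
      unfold deg at this
      rw [this]
      simp
    · obtain ⟨S, rfl⟩ : ∃ S : Finset P, T = S.map Function.Embedding.some := by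
        refine ⟨eraseNone T, ?_⟩
        rw [map_some_eraseNone, erase_eq_of_notMem hn]
      rw [card_map] at hT
      have h1 : B.filter (fun b => S.map Function.Embedding.some ⊆ b.map Function.Embedding.some)
          = B.filter (fun b => S ⊆ b) := by
        apply filter_congr
        intro b _
        exact map_subset_map
      have h2 : (hexads B).filter (fun H => S.map Function.Embedding.some ⊆ insertNone H)
          = (hexads B).filter (fun H => S ⊆ H) := by
        apply filter_congr
        intro H _
        constructor
        · intro h p hp
          have := h (mem_map_of_mem Function.Embedding.some hp)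
          simpa using this
        · intro h q hq
          rw [mem_map] at hq
          obtain ⟨p, hp, rfl⟩ := hq
          simpa using h hp
      rw [h1, h2]
      change deg B S + deg (hexads B) S = 1
      have hd := deg_le_one B hint' S hT
      obtain ⟨S3, hS3S, hS3⟩ := Finset.exists_subset_card_eq (s := S) (n := 3) (by omega)
      have hle : deg (hexads B) S ≤ deg (hexads B) S3 := by
        unfold deg
        apply card_le_card
        intro H hH
        rw [mem_filter] at hH ⊢
        exact ⟨hH.1, hS3S.trans hH.2⟩
      rw [hhex S3 hS3] at hle
      rcases Nat.eq_zero_or_pos (deg B S) with h0 | h0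
      · -- uncovered
        have hone := hhex S3 hS3
        unfold deg at hone
        rw [card_eq_one] at hone
        obtain ⟨H, hH⟩ := hone
        have hHm : H ∈ (hexads B).filter (fun H => S3 ⊆ H) := by rw [hH]; simp
        rw [mem_filter] at hHm
        have hH6 : H.card = 6 := by
          have := hHm.1
          unfold hexads at this
          rw [mem_filter, mem_powersetCard] at this
          exact this.1.2
        -- `H = S3 ∪ RR B S3`
        have hR : (RR B S3).card = 3 := by
          have := card_RR B 7 4 hB h3 hint' S3 hS3
          omega
        have hsub : H \ S3 ⊆ RR B S3 := by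
          intro q hq
          rw [mem_sdiff] at hq
          unfold RR
          rw [mem_filter, mem_sdiff]
          refine ⟨⟨mem_univ _, hq.2⟩, ?_⟩
          have := hHm.1
          unfold hexads at this
          rw [mem_filter] at this
          apply this.2
          rw [mem_powersetCard]
          exact ⟨insert_subset hq.1 hHm.2, by rw [card_insert_of_notMem hq.2, hS3]⟩
        have heq : H \ S3 = RR B S3 := by
          apply eq_of_subset_of_card_le hsub
          rw [hR, card_sdiff_of_subset hHm.2, hH6, hS3]
        have hSH : S ⊆ H := by
          intro q hq
          by_cases hq3 : q ∈ S3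
          · exact hHm.2 hq3
          · have : q ∈ RR B S3 := by
              unfold RR
              rw [mem_filter, mem_sdiff]
              refine ⟨⟨mem_univ _, hq3⟩, ?_⟩
              have : insert q S3 = S := by
                apply eq_of_subset_of_card_le (insert_subset hq hS3S)
                rw [card_insert_of_notMem hq3, hS3, hT]
              rw [this, h0]
            rw [← heq, mem_sdiff] at this
            exact this.1
        have hpos : 0 < deg (hexads B) S := by
          unfold deg
          exact card_pos.2 ⟨H, mem_filter.2 ⟨hHm.1, hSH⟩⟩
        omega
      · have h10 : deg (hexads B) S = 0 := by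
          rw [deg_eq_zero_iff]
          intro H hH hSH
          unfold hexads at hH
          rw [mem_filter] at hH
          have := hH.2 S (mem_powersetCard.2 ⟨hSH, hT⟩)
          omega
        omega

end Pool.Agent.TH413.QS
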