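import Pool.Agent.TH413.QS.Arith
import Pool.Agent.TH413.QS.Count
import Pool.Agent.TH413.QS.Div

set_option autoImplicit false

namespace Pool.Agent.TH413.QS

open Finset

variable {P : Type*} [Fintype P] [DecidableEq P]

set_option linter.unusedSectionVars false

lemma choose_three_cast (n : ℕ) : 6 * ((n.choose 3 : ℕ) : ℤ) = n * (n - 1) * (n - 2) := by
  induction n with
  | zero => simp
  | succ n ih =>
    have h2 : 2 * ((n.choose 2 : ℕ) : ℤ) = n * (n - 1) := by
      have h := Nat.choose_two_right n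
      have h3 : 2 ∣ n * (n - 1) := Nat.even_mul_pred_self n |>.two_dvd
      have h4 : 2 * n.choose 2 = n * (n - 1) := by rw [h]; exact Nat.mul_div_cancel' h3
      rcases Nat.eq_zero_or_pos n with rfl | hn
      · simp
      · have h5 : ((n - 1 : ℕ) : ℤ) = (n : ℤ) - 1 := by omega
        have h6 : ((2 * n.choose 2 : ℕ) : ℤ) = ((n * (n - 1) : ℕ) : ℤ) := by rw [h4]
        push_cast at h6
        rw [h5] at h6
        exact h6
    rw [Nat.choose_succ_succ' n 2]
    push_cast
    linear_combination ih + 3 * h2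

lemma choose_two_cast (n : ℕ) : 2 * ((n.choose 2 : ℕ) : ℤ) = n * (n - 1) := by
  have h := Nat.choose_two_right n
  have h3 : 2 ∣ n * (n - 1) := Nat.even_mul_pred_self n |>.two_dvd
  have h4 : 2 * n.choose 2 = n * (n - 1) := by rw [h]; exact Nat.mul_div_cancel' h3
  rcases Nat.eq_zero_or_pos n with rfl | hn
  · simp
  · have h5 : ((n - 1 : ℕ) : ℤ) = (n : ℤ) - 1 := by omega
    have h6 : ((2 * n.choose 2 : ℕ) : ℤ) = ((n * (n - 1) : ℕ) : ℤ) := by rw [h4]
    push_cast at h6
    rw [h5] at h6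
    exact h6

/-- number of blocks other than `b0` meeting `b0` in exactly `i` points -/
def cnt (B : Finset (Finset P)) (b0 : Finset P) (i : ℕ) : ℕ :=
  ((B.erase b0).filter (fun b => (b0 ∩ b).card = i)).card

lemma sum_choose (B : Finset (Finset P)) (k x y : ℕ) (hxy : x ≠ y) (b0 : Finset P) (hb0 : b0 ∈ B)
    (hk : b0.card = k)
    (hint : ∀ b₁ ∈ B, ∀ b₂ ∈ B, b₁ ≠ b₂ → (b₁ ∩ b₂).card = x ∨ (b₁ ∩ b₂).card = y) (j : ℕ) :
    ∑ b ∈ B, (b0 ∩ b).card.choose j
      = k.choose j + cnt B b0 x * x.choose j + cnt B b0 y * y.choose j := by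
  rw [← Finset.add_sum_erase _ _ hb0, inter_self, hk, add_assoc]
  congr 1
  have h1 : B.erase b0 = (B.erase b0).filter (fun b => (b0 ∩ b).card = x)
      ∪ (B.erase b0).filter (fun b => (b0 ∩ b).card = y) := by
    ext b
    simp only [mem_union, mem_filter]
    constructor
    · intro h
      rcases hint b0 hb0 b (mem_of_mem_erase h) (ne_of_mem_erase h).symm with h' | h'
      · exact Or.inl ⟨h, h'⟩
      · exact Or.inr ⟨h, h'⟩
    · rintro (h | h) <;> exact h.1
  have hdis : Disjoint ((B.erase b0).filter (fun b => (b0 ∩ b).card = x))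
      ((B.erase b0).filter (fun b => (b0 ∩ b).card = y)) := by
    rw [Finset.disjoint_left]
    intro b h h'
    rw [mem_filter] at h h'
    exact hxy (h.2.symm.trans h'.2)
  conv_lhs => rw [h1]
  rw [Finset.sum_union hdis]
  congr 1
  · rw [Finset.sum_congr rfl (g := fun _ => x.choose j), Finset.sum_const, smul_eq_mul, cnt]
    intro b hb
    rw [(mem_filter.1 hb).2]
  · rw [Finset.sum_congr rfl (g := fun _ => y.choose j), Finset.sum_const, smul_eq_mul, cnt]
    intro b hb
    rw [(mem_filter.1 hb).2]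

/-- basic parameters of a 3-design -/
lemma basic (B : Finset (Finset P)) (k lam : ℕ) (hk : 3 ≤ k) (hkv : k < Fintype.card P)
    (hB : ∀ b ∈ B, b.card = k) (h3 : ∀ T : Finset P, T.card = 3 → deg B T = lam) :
    ∃ l2 r : ℕ, (∀ S : Finset P, S.card = 2 → deg B S = l2) ∧
      (∀ S : Finset P, S.card = 1 → deg B S = r) ∧
      l2 * (k - 2) = lam * (Fintype.card P - 2) ∧
      r * (k - 1) = l2 * (Fintype.card P - 1) ∧
      B.card * k = r * Fintype.card P := by
  obtain ⟨S2, -, hS2⟩ := Finset.exists_subset_card_eq (s := (univ : Finset P)) (n := 2)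
    (by rw [card_univ]; omega)
  obtain ⟨S1, -, hS1⟩ := Finset.exists_subset_card_eq (s := (univ : Finset P)) (n := 1)
    (by rw [card_univ]; omega)
  have e2 : ∀ S : Finset P, S.card = 2 → deg B S = deg B S2 := by
    intro S hS
    have h1 := step_down B k 2 lam hB h3 S hS
    have h2 := step_down B k 2 lam hB h3 S2 hS2
    have h4 : deg B S * (k - 2) = deg B S2 * (k - 2) := by rw [h1, h2]
    exact Nat.eq_of_mul_eq_mul_right (by omega) h4
  have e1 : ∀ S : Finset P, S.card = 1 → deg B S = deg B S1 := by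
    intro S hS
    have h1 := step_down B k 1 _ hB e2 S hS
    have h2 := step_down B k 1 _ hB e2 S1 hS1
    have h4 : deg B S * (k - 1) = deg B S1 * (k - 1) := by rw [h1, h2]
    exact Nat.eq_of_mul_eq_mul_right (by omega) h4
  refine ⟨deg B S2, deg B S1, e2, e1, step_down B k 2 lam hB h3 S2 hS2,
    step_down B k 1 _ hB e2 S1 hS1, ?_⟩
  have h0 := step_down B k 0 _ hB e1 ∅ rfl
  simp only [Nat.sub_zero] at h0
  rw [← h0]
  congr 1
  unfold deg
  simp

/-- The parameters of a quasi-symmetric 3-design with smaller intersection number 1. -/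
theorem params (B : Finset (Finset P)) (k lam y : ℕ) (hk : 3 ≤ k) (hkv : k < Fintype.card P)
    (hB : ∀ b ∈ B, b.card = k) (h3 : ∀ T : Finset P, T.card = 3 → deg B T = lam) (hy : 1 < y)
    (hint : ∀ b₁ ∈ B, ∀ b₂ ∈ B, b₁ ≠ b₂ → (b₁ ∩ b₂).card = 1 ∨ (b₁ ∩ b₂).card = y)
    (hx1 : ∃ b₁ ∈ B, ∃ b₂ ∈ B, b₁ ≠ b₂ ∧ (b₁ ∩ b₂).card = 1)
    (hy1 : ∃ b₁ ∈ B, ∃ b₂ ∈ B, b₁ ≠ b₂ ∧ (b₁ ∩ b₂).card = y) :
    (k = 7 ∧ y = 3 ∧ ((lam = 4 ∧ Fintype.card P = 22) ∨ (lam = 5 ∧ Fintype.card P = 23))) ∨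
      (k = 3 ∧ y = 2 ∧ lam = 1 ∧ Fintype.card P = 5) := by
  obtain ⟨l2, r, hl2, hr, d2, d1, d0⟩ := basic B k lam hk hkv hB h3
  obtain ⟨b0, hb0, b0', hb0', hne0, hi0⟩ := hx1
  obtain ⟨b1, hb1, b1', hb1', hne1, hi1⟩ := hy1
  -- y < k
  have hyk : y < k := by
    have h1 : (b1 ∩ b1').card < b1.card := by
      apply card_lt_card
      refine ⟨inter_subset_left, fun h => hne1 ?_⟩
      have h2 : b1 ⊆ b1' := fun p hp => (mem_inter.1 (h hp)).2
      exact eq_of_subset_of_card_le h2 (by rw [hB _ hb1, hB _ hb1'])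
    rw [hi1, hB _ hb1] at h1
    exact h1
  -- lam ≥ 1
  have hlam : 1 ≤ lam := by
    obtain ⟨T, hT, hTc⟩ := Finset.exists_subset_card_eq (s := b0) (n := 3) (by rw [hB _ hb0]; omega)
    rw [← h3 T hTc]
    unfold deg
    exact card_pos.2 ⟨b0, mem_filter.2 ⟨hb0, hT⟩⟩
  -- the counting equations for a block
  have eqs : ∀ b ∈ B, (1 : ℤ) + cnt B b 1 + cnt B b y = B.card ∧
      (k : ℤ) + cnt B b 1 + cnt B b y * y = k * r ∧
      (k : ℤ) * (k - 1) + cnt B b y * (y * (y - 1)) = k * (k - 1) * l2 ∧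
      (k : ℤ) * (k - 1) * (k - 2) + cnt B b y * (y * (y - 1) * (y - 2))
        = k * (k - 1) * (k - 2) * lam := by
    intro b hb
    have hbk := hB b hb
    have s0 := sum_choose B k 1 y (by omega) b hb hbk hint 0
    have s1 := sum_choose B k 1 y (by omega) b hb hbk hint 1
    have s2 := sum_choose B k 1 y (by omega) b hb hbk hint 2
    have s3 := sum_choose B k 1 y (by omega) b hb hbk hint 3
    rw [← sum_deg] at s1 s2 s3
    have t1 : ∑ T ∈ b.powersetCard 1, deg B T = k * r := by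
      rw [Finset.sum_congr rfl (g := fun _ => r) (fun T hT => hr T (mem_powersetCard.1 hT).2),
        Finset.sum_const, card_powersetCard, hbk, smul_eq_mul, Nat.choose_one_right]
    have t2 : ∑ T ∈ b.powersetCard 2, deg B T = k.choose 2 * l2 := by
      rw [Finset.sum_congr rfl (g := fun _ => l2) (fun T hT => hl2 T (mem_powersetCard.1 hT).2),
        Finset.sum_const, card_powersetCard, hbk, smul_eq_mul]
    have t3 : ∑ T ∈ b.powersetCard 3, deg B T = k.choose 3 * lam := by
      rw [Finset.sum_congr rfl (g := fun _ => lam) (fun T hT => h3 T (mem_powersetCard.1 hT).2),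
        Finset.sum_const, card_powersetCard, hbk, smul_eq_mul]
    rw [t1] at s1
    rw [t2] at s2
    rw [t3] at s3
    simp only [Nat.choose_zero_right, Finset.sum_const, smul_eq_mul, mul_one] at s0
    simp only [Nat.choose_one_right, mul_one] at s1
    have c12 : (1 : ℕ).choose 2 = 0 := rfl
    have c13 : (1 : ℕ).choose 3 = 0 := rfl
    rw [c12, mul_zero, add_zero] at s2
    rw [c13, mul_zero, add_zero] at s3
    have ck2 := choose_two_cast k
    have cy2 := choose_two_cast y
    have ck3 := choose_three_cast k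
    have cy3 := choose_three_cast y
    have s2' : ((k.choose 2 : ℕ) : ℤ) * l2 = (k.choose 2 : ℕ) + cnt B b y * (y.choose 2 : ℕ) := by
      exact_mod_cast s2
    have s3' : ((k.choose 3 : ℕ) : ℤ) * lam = (k.choose 3 : ℕ) + cnt B b y * (y.choose 3 : ℕ) := by
      exact_mod_cast s3
    refine ⟨by rw [s0]; push_cast; ring, ?_, ?_, ?_⟩
    · have : (k : ℤ) * r = k + cnt B b 1 + cnt B b y * y := by exact_mod_cast s1
      linarith
    · linear_combination (-1 : ℤ) * ck2 - (cnt B b y : ℤ) * cy2 + (l2 : ℤ) * ck2 - 2 * s2'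
    · linear_combination (-1 : ℤ) * ck3 - (cnt B b y : ℤ) * cy3 + (lam : ℤ) * ck3 - 6 * s3'
  obtain ⟨e0, e1, e2, e3⟩ := eqs b0 hb0
  obtain ⟨-, -, f2, -⟩ := eqs b1 hb1
  have hy0 : (0 : ℤ) < (y : ℤ) * (y - 1) := by
    have : (1 : ℤ) < y := by exact_mod_cast hy
    exact mul_pos (by linarith) (by linarith)
  -- positivity of the two counts
  have ha : 0 < cnt B b0 1 := by
    unfold cnt
    exact card_pos.2 ⟨b0', mem_filter.2 ⟨mem_erase.2 ⟨hne0.symm, hb0'⟩, hi0⟩⟩
  have hc1 : 0 < cnt B b1 y := by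
    unfold cnt
    exact card_pos.2 ⟨b1', mem_filter.2 ⟨mem_erase.2 ⟨hne1.symm, hb1'⟩, hi1⟩⟩
  have hcc : (cnt B b0 y : ℤ) = cnt B b1 y := by
    have : ((cnt B b0 y : ℤ) - cnt B b1 y) * ((y : ℤ) * (y - 1)) = 0 := by
      linear_combination e2 - f2
    rcases mul_eq_zero.1 this with h | h
    · linarith
    · exact absurd h hy0.ne'
  have hc : 0 < cnt B b0 y := by omega
  -- cast the divisibility equations
  have D2 : (l2 : ℤ) * (k - 2) = lam * ((Fintype.card P : ℤ) - 2) := by
    have h1 : ((k - 2 : ℕ) : ℤ) = (k : ℤ) - 2 := by omega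
    have h2 : ((Fintype.card P - 2 : ℕ) : ℤ) = (Fintype.card P : ℤ) - 2 := by omega
    rw [← h1, ← h2]
    exact_mod_cast d2
  have D1 : (r : ℤ) * (k - 1) = l2 * ((Fintype.card P : ℤ) - 1) := by
    have h1 : ((k - 1 : ℕ) : ℤ) = (k : ℤ) - 1 := by omega
    have h2 : ((Fintype.card P - 1 : ℕ) : ℤ) = (Fintype.card P : ℤ) - 1 := by omega
    rw [← h1, ← h2]
    exact_mod_cast d1
  have D0 : (B.card : ℤ) * k = r * (Fintype.card P : ℤ) := by exact_mod_cast d0
  set v : ℤ := (Fintype.card P : ℤ) with hv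
  set a : ℤ := (cnt B b0 1 : ℤ) with hadef
  set c : ℤ := (cnt B b0 y : ℤ) with hcdef
  have ha' : 0 < a := by rw [hadef]; exact_mod_cast ha
  have hc' : 0 < c := by rw [hcdef]; exact_mod_cast hc
  have hkv' : (k : ℤ) < v := by rw [hv]; exact_mod_cast hkv
  have hk' : (3 : ℤ) ≤ k := by exact_mod_cast hk
  have hy' : (1 : ℤ) < y := by exact_mod_cast hy
  -- r > k by the variance identity
  have hvar : (v - 1) * (a * c * ((y : ℤ) - 1) ^ 2) = r * ((r : ℤ) - k) * (v - k) ^ 2 := by
    have i1 : a * c * ((y : ℤ) - 1) ^ 2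
        = (a + c) * (a + c * y ^ 2) - (a + c * y) ^ 2 := by ring
    have i2 : a + c = (B.card : ℤ) - 1 := by linarith
    have i3 : a + c * y = k * r - k := by linarith
    have i4 : a + c * y ^ 2 = k * (k - 1) * l2 - k * (k - 1) + (k * r - k) := by
      linear_combination e2 + e1
    rw [i1, i2, i3, i4]
    have hk0 : (k : ℤ) ≠ 0 := by omega
    apply mul_left_cancel₀ hk0
    linear_combination ((v - 1) * (k * (k - 1) * l2 - k * (k - 1) + (k * r - k))) * D0
      - ((k : ℤ) * (k - 1) * (v * r - k)) * D1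
  have hrk : (k : ℤ) < r := by
    have h1 : 0 < (v - 1) * (a * c * ((y : ℤ) - 1) ^ 2) := by
      apply mul_pos (by linarith)
      apply mul_pos (mul_pos ha' hc')
      have : (0 : ℤ) < (y : ℤ) - 1 := by linarith
      positivity
    rw [hvar] at h1
    have h2 : 0 < (v - k) ^ 2 := by
      have : 0 < v - k := by linarith
      positivity
    have h3 : (0 : ℤ) < r * ((r : ℤ) - k) := (pos_iff_pos_of_mul_pos h1).2 h2
    have h4 : (0 : ℤ) ≤ r := by positivity
    by_contra hcon
    push Not at hcon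
    have : (r : ℤ) * ((r : ℤ) - k) ≤ 0 := mul_nonpos_of_nonneg_of_nonpos h4 (by linarith)
    linarith
  have hbv : Fintype.card P < B.card := by
    have h1 : (k : ℤ) * v < B.card * k := by
      rw [D0]
      exact mul_lt_mul_of_pos_right hrk (by linarith)
    have h2 : v < (B.card : ℤ) := by
      have h3 : v * (k : ℤ) < (B.card : ℤ) * k := by linarith
      exact lt_of_mul_lt_mul_right h3 (by linarith)
    rw [hv] at h2
    exact_mod_cast h2
  have hdv := dvd_sub B k 1 y (by omega) hB hint hbv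
  have hfin := arith k y v lam l2 r B.card a c hk' hkv' hy' (by exact_mod_cast hyk)
    (by exact_mod_cast hlam) e0 e1 e2 e3 D2 D1 D0 (by exact_mod_cast hdv)
  rcases hfin with ⟨h1, h2, h3⟩ | ⟨h1, h2, h3, h4⟩
  · left
    refine ⟨by exact_mod_cast h1, by exact_mod_cast h2, ?_⟩
    rcases h3 with ⟨h3, h4⟩ | ⟨h3, h4⟩
    · left; exact ⟨by exact_mod_cast h3, by rw [hv] at h4; exact_mod_cast h4⟩
    · right; exact ⟨by exact_mod_cast h3, by rw [hv] at h4; exact_mod_cast h4⟩
  · right
    have hk3 : k = 3 := by exact_mod_cast h1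
    refine ⟨hk3, by exact_mod_cast h2, by exact_mod_cast h3, ?_⟩
    have h5 : (b0 ∪ b0').card = 5 := by
      have := card_union_add_card_inter b0 b0'
      rw [hi0, hB _ hb0, hB _ hb0', hk3] at this
      omega
    have h6 : (b0 ∪ b0').card ≤ Fintype.card P := card_le_univ _
    rw [hv] at h4
    rcases h4 with h4 | h4
    · have : Fintype.card P = 4 := by exact_mod_cast h4
      omega
    · exact_mod_cast h4

end Pool.Agent.TH413.QS
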