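import Pool.Agent.TH413.QS.Count

set_option autoImplicit false
set_option linter.unusedSectionVars false

namespace Pool.Agent.TH413.QS

open Finset

variable {P : Type*} [Fintype P] [DecidableEq P]

/-- A four-element set is in at most one block if blocks meet in at most three points. -/
lemma deg_le_one (B : Finset (Finset P))
    (hint : ∀ b₁ ∈ B, ∀ b₂ ∈ B, b₁ ≠ b₂ → (b₁ ∩ b₂).card ≤ 3) (T : Finset P) (hT : T.card = 4) :
    deg B T ≤ 1 := by
  unfold deg
  rw [Finset.card_le_one]
  intro b₁ h₁ b₂ h₂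
  rw [mem_filter] at h₁ h₂
  by_contra hne
  have h3 := hint b₁ h₁.1 b₂ h₂.1 hne
  have h4 := card_le_card (subset_inter h₁.2 h₂.2)
  omega

/-- the set of points completing `S` to an uncovered set -/
def RR (B : Finset (Finset P)) (S : Finset P) : Finset P :=
  (univ \ S).filter (fun q => deg B (insert q S) = 0)

lemma card_RR (B : Finset (Finset P)) (k lam : ℕ) (hB : ∀ b ∈ B, b.card = k)
    (h3 : ∀ T : Finset P, T.card = 3 → deg B T = lam)
    (hint : ∀ b₁ ∈ B, ∀ b₂ ∈ B, b₁ ≠ b₂ → (b₁ ∩ b₂).card ≤ 3) (S : Finset P) (hS : S.card = 3) :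
    (RR B S).card + lam * (k - 3) = Fintype.card P - 3 := by
  have h1 := sum_deg_insert B S
  have h2 : ∑ b ∈ B.filter (fun b => S ⊆ b), (b \ S).card = lam * (k - 3) := by
    rw [← h3 S hS]
    unfold deg
    rw [Finset.sum_congr rfl (g := fun _ => k - 3), Finset.sum_const, smul_eq_mul]
    intro b hb
    rw [mem_filter] at hb
    rw [card_sdiff_of_subset hb.2, hB b hb.1, hS]
  rw [h2] at h1
  have h4 : ∑ q ∈ univ \ S, deg B (insert q S)
      = ((univ \ S).filter (fun q => ¬ deg B (insert q S) = 0)).card := by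
    rw [Finset.card_filter]
    refine Finset.sum_congr rfl fun q hq => ?_
    have hc : (insert q S).card = 4 := by
      rw [card_insert_of_notMem (by simpa using hq), hS]
    have := deg_le_one B hint _ hc
    split_ifs with h <;> omega
  have h5 := Finset.card_filter_add_card_filter_not (s := univ \ S)
    (fun q => deg B (insert q S) = 0)
  rw [card_sdiff_of_subset (subset_univ S), hS, card_univ] at h5
  unfold RR
  omega

/-- If the uncovered sets are absent (parameters of `S(4,7,23)`), every four-set is in one block. -/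
lemma four_design (B : Finset (Finset P)) (k lam : ℕ) (hB : ∀ b ∈ B, b.card = k)
    (h3 : ∀ T : Finset P, T.card = 3 → deg B T = lam)
    (hint : ∀ b₁ ∈ B, ∀ b₂ ∈ B, b₁ ≠ b₂ → (b₁ ∩ b₂).card ≤ 3)
    (hv : lam * (k - 3) = Fintype.card P - 3) (T : Finset P) (hT : T.card = 4) :
    deg B T = 1 := by
  obtain ⟨S, hST, hS⟩ := Finset.exists_subset_card_eq (s := T) (n := 3) (by omega)
  have h1 := card_RR B k lam hB h3 hint S hS
  have h2 : (RR B S).card = 0 := by omega
  rw [card_eq_zero] at h2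
  obtain ⟨q, hq⟩ : ∃ q, q ∈ T \ S := by
    have : 0 < (T \ S).card := by rw [card_sdiff_of_subset hST]; omega
    exact card_pos.1 this
  rw [mem_sdiff] at hq
  have hTq : insert q S = T := by
    apply eq_of_subset_of_card_le
    · exact insert_subset hq.1 hST
    · rw [card_insert_of_notMem hq.2, hS, hT]
  have h3' : deg B (insert q S) ≠ 0 := by
    intro h
    have : q ∈ RR B S := by
      unfold RR
      rw [mem_filter, mem_sdiff]
      exact ⟨⟨mem_univ _, hq.2⟩, h⟩
    rw [h2] at this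
    simp at this
  have h4 := deg_le_one B hint T hT
  rw [hTq] at h3'
  omega

lemma deg_eq_zero_iff (B : Finset (Finset P)) (T : Finset P) :
    deg B T = 0 ↔ ∀ b ∈ B, ¬ T ⊆ b := by
  unfold deg
  rw [card_eq_zero, filter_eq_empty_iff]

/-- transitivity of parallelism -/
lemma par_trans (B : Finset (Finset P)) (hB : ∀ b ∈ B, b.card = 7)
    (h3 : ∀ T : Finset P, T.card = 3 → deg B T = 4)
    (hint : ∀ b₁ ∈ B, ∀ b₂ ∈ B, b₁ ≠ b₂ → (b₁ ∩ b₂).card = 1 ∨ (b₁ ∩ b₂).card = 3)
    (S : Finset P) (hS : S.card = 2) (s t t' : P) (hs : s ∉ S) (ht : t ∉ S) (ht' : t' ∉ S)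
    (hst : s ≠ t) (htt' : t ≠ t') (hst' : s ≠ t')
    (h1 : deg B (insert s (insert t S)) = 0) (h2 : deg B (insert t' (insert t S)) = 0) :
    deg B (insert s (insert t' S)) = 0 := by
  rw [deg_eq_zero_iff] at h1 h2 ⊢
  intro b hb hsub
  have hSb : S ⊆ b := fun p hp => hsub (mem_insert_of_mem (mem_insert_of_mem hp))
  have hsb : s ∈ b := hsub (mem_insert_self _ _)
  have ht'b : t' ∈ b := hsub (mem_insert_of_mem (mem_insert_self _ _))
  have htb : t ∉ b := by
    intro htb
    apply h1 b hb
    exact insert_subset hsb (insert_subset htb hSb)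
  -- the four blocks through `insert t S`
  set T := insert t S with hT
  have hTc : T.card = 3 := by rw [hT, card_insert_of_notMem ht, hS]
  have h4 : (B.filter (fun c => T ⊆ c)).card = 4 := h3 T hTc
  -- each meets `b` in exactly one further point
  have hf : ∀ c ∈ B.filter (fun c => T ⊆ c), ∃ q ∈ (b \ S) \ {s, t'}, q ∈ c := by
    intro c hc
    rw [mem_filter] at hc
    have hcb : c ≠ b := by
      rintro rfl
      exact htb (hc.2 (mem_insert_self _ _))
    have hSc : S ⊆ c := fun p hp => hc.2 (mem_insert_of_mem hp)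
    have hSi : S ⊆ c ∩ b := subset_inter hSc hSb
    have h5 := card_le_card hSi
    have h6 : (c ∩ b).card = 3 := by
      rcases hint c hc.1 b hb hcb with h | h <;> omega
    obtain ⟨q, hq⟩ : ∃ q, q ∈ (c ∩ b) \ S := by
      have : 0 < ((c ∩ b) \ S).card := by rw [card_sdiff_of_subset hSi]; omega
      exact card_pos.1 this
    rw [mem_sdiff, mem_inter] at hq
    refine ⟨q, ?_, hq.1.1⟩
    rw [mem_sdiff, mem_sdiff]
    refine ⟨⟨hq.1.2, hq.2⟩, ?_⟩
    intro hqm
    rw [mem_insert, mem_singleton] at hqm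
    rcases hqm with rfl | rfl
    · exact h1 c hc.1 (insert_subset hq.1.1 hc.2)
    · exact h2 c hc.1 (insert_subset hq.1.1 hc.2)
  have : Nonempty P := ⟨s⟩
  choose! f hf1 hf2 using hf
  have hcard3 : ((b \ S) \ {s, t'}).card = 3 := by
    have hpair : ({s, t'} : Finset P) ⊆ b \ S := by
      intro p hp
      rw [mem_insert, mem_singleton] at hp
      rw [mem_sdiff]
      rcases hp with rfl | rfl
      · exact ⟨hsb, hs⟩
      · exact ⟨ht'b, ht'⟩
    rw [card_sdiff_of_subset hpair, card_sdiff_of_subset hSb, hB b hb, hS, card_pair hst']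
  obtain ⟨c, hc, c', hc', hcc', hff⟩ := Finset.exists_ne_map_eq_of_card_lt_of_maps_to
    (s := B.filter (fun c => T ⊆ c)) (t := (b \ S) \ {s, t'}) (f := f) (by omega)
    (fun c hc => hf1 c hc)
  have hq1 := hf1 c hc
  have hq2 := hf2 c hc
  have hq3 := hf2 c' hc'
  rw [← hff] at hq3
  rw [mem_filter] at hc hc'
  have hqT : f c ∉ T := by
    rw [mem_sdiff, mem_sdiff] at hq1
    intro h
    rw [hT, mem_insert] at h
    rcases h with h | h
    · rw [h] at hq1
      exact htb hq1.1.1
    · exact hq1.1.2 h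
  have hsub4 : insert (f c) T ⊆ c ∩ c' := by
    apply insert_subset (mem_inter.2 ⟨hq2, hq3⟩)
    exact subset_inter hc.2 hc'.2
  have h8 := card_le_card hsub4
  rw [card_insert_of_notMem hqT, hTc] at h8
  rcases hint c hc.1 c' hc'.1 hcc' with h | h <;> omega

/-- goodness of a 3-subset of `H` -/
def Good (B : Finset (Finset P)) (H S : Finset P) : Prop :=
  S ⊆ H ∧ S.card = 3 ∧ ∀ t ∈ H \ S, deg B (insert t S) = 0

lemma good_exchange (B : Finset (Finset P)) (hB : ∀ b ∈ B, b.card = 7)
    (h3 : ∀ T : Finset P, T.card = 3 → deg B T = 4)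
    (hint : ∀ b₁ ∈ B, ∀ b₂ ∈ B, b₁ ≠ b₂ → (b₁ ∩ b₂).card = 1 ∨ (b₁ ∩ b₂).card = 3)
    (H S : Finset P) (hg : Good B H S) (c x : P) (hc : c ∈ S) (hx : x ∈ H) (hxS : x ∉ S) :
    Good B H (insert x (S.erase c)) := by
  obtain ⟨hSH, hS3, hgood⟩ := hg
  have hcx : c ≠ x := by rintro rfl; exact hxS hc
  refine ⟨?_, ?_, ?_⟩
  · exact insert_subset hx ((erase_subset _ _).trans hSH)
  · rw [card_insert_of_notMem, card_erase_of_mem hc, hS3]
    intro h
    exact hxS (mem_of_mem_erase h)
  · intro t ht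
    rw [mem_sdiff, mem_insert, mem_erase] at ht
    push Not at ht
    obtain ⟨htH, htx, ht2⟩ := ht
    by_cases htc : t = c
    · subst htc
      have : insert t (insert x (S.erase t)) = insert x S := by
        rw [Finset.insert_comm, insert_erase hc]
      rw [this]
      exact hgood x (mem_sdiff.2 ⟨hx, hxS⟩)
    · have htS : t ∉ S := ht2 htc
      have hE : (S.erase c).card = 2 := by rw [card_erase_of_mem hc, hS3]
      have hi : insert c (S.erase c) = S := insert_erase hc
      apply par_trans B hB h3 hint (S.erase c) hE t c x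
      · intro h; exact htS (mem_of_mem_erase h)
      · simp
      · intro h; exact hxS (mem_of_mem_erase h)
      · exact htc
      · exact hcx
      · exact htx
      · rw [hi]
        exact hgood t (mem_sdiff.2 ⟨htH, htS⟩)
      · rw [hi]
        exact hgood x (mem_sdiff.2 ⟨hx, hxS⟩)

lemma good_all (B : Finset (Finset P)) (hB : ∀ b ∈ B, b.card = 7)
    (h3 : ∀ T : Finset P, T.card = 3 → deg B T = 4)
    (hint : ∀ b₁ ∈ B, ∀ b₂ ∈ B, b₁ ≠ b₂ → (b₁ ∩ b₂).card = 1 ∨ (b₁ ∩ b₂).card = 3)
    (H S' : Finset P) (hS' : S' ⊆ H) (hS'3 : S'.card = 3) :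
    ∀ n : ℕ, ∀ S : Finset P, Good B H S → (S' \ S).card = n → Good B H S' := by
  intro n
  induction n with
  | zero =>
    intro S hS h0
    rw [card_eq_zero, sdiff_eq_empty_iff_subset] at h0
    have : S' = S := eq_of_subset_of_card_le h0 (by rw [hS.2.1, hS'3])
    rwa [this]
  | succ n ih =>
    intro S hS hn
    obtain ⟨x, hx⟩ : ∃ x, x ∈ S' \ S := card_pos.1 (by omega)
    have hcard : (S \ S').card = (S' \ S).card := by
      have h1 := card_sdiff_add_card_inter S S'
      have h2 := card_sdiff_add_card_inter S' S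
      rw [inter_comm] at h2
      have h4 := hS.2.1
      omega
    obtain ⟨c, hc⟩ : ∃ c, c ∈ S \ S' := card_pos.1 (by omega)
    rw [mem_sdiff] at hx hc
    have hg := good_exchange B hB h3 hint H S hS c x hc.1 (hS' hx.1) hx.2
    apply ih _ hg
    have : S' \ insert x (S.erase c) = (S' \ S).erase x := by
      ext p
      simp only [mem_sdiff, mem_insert, mem_erase]
      constructor
      · rintro ⟨h1, h2⟩
        push Not at h2
        refine ⟨h2.1, h1, ?_⟩
        apply h2.2
        rintro rfl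
        exact hc.2 h1
      · rintro ⟨h1, h2, h4⟩
        refine ⟨h2, ?_⟩
        push Not
        exact ⟨h1, fun _ => h4⟩
    rw [this, card_erase_of_mem (mem_sdiff.2 hx), hn]
    rfl

/-- the hexads -/
def hexads (B : Finset (Finset P)) : Finset (Finset P) :=
  ((univ : Finset P).powersetCard 6).filter (fun H => ∀ Q ∈ H.powersetCard 4, deg B Q = 0)

/-- every triple is in exactly one hexad -/
lemma hexads_design (B : Finset (Finset P)) (hP : Fintype.card P = 22)
    (hB : ∀ b ∈ B, b.card = 7) (h3 : ∀ T : Finset P, T.card = 3 → deg B T = 4)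
    (hint : ∀ b₁ ∈ B, ∀ b₂ ∈ B, b₁ ≠ b₂ → (b₁ ∩ b₂).card = 1 ∨ (b₁ ∩ b₂).card = 3)
    (S : Finset P) (hS : S.card = 3) : deg (hexads B) S = 1 := by
  have hint' : ∀ b₁ ∈ B, ∀ b₂ ∈ B, b₁ ≠ b₂ → (b₁ ∩ b₂).card ≤ 3 := by
    intro b₁ h₁ b₂ h₂ hne
    rcases hint b₁ h₁ b₂ h₂ hne with h | h <;> omega
  have hR : (RR B S).card = 3 := by
    have := card_RR B 7 4 hB h3 hint' S hS
    omega
  have hdisj : Disjoint S (RR B S) := by
    rw [Finset.disjoint_left]
    intro p hp hp'
    unfold RR at hp'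
    rw [mem_filter, mem_sdiff] at hp'
    exact hp'.1.2 hp
  have hH6 : (S ∪ RR B S).card = 6 := by rw [card_union_of_disjoint hdisj, hS, hR]
  have hgoodS : Good B (S ∪ RR B S) S := by
    refine ⟨subset_union_left, hS, ?_⟩
    intro t ht
    rw [mem_sdiff, mem_union] at ht
    rcases ht with ⟨h | h, h'⟩
    · exact absurd h h'
    · unfold RR at h
      exact (mem_filter.1 h).2
  unfold deg
  rw [card_eq_one]
  refine ⟨S ∪ RR B S, ?_⟩
  ext H
  rw [mem_filter, mem_singleton]
  constructor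
  · rintro ⟨hH, hSH⟩
    unfold hexads at hH
    rw [mem_filter, mem_powersetCard] at hH
    have hsub : H \ S ⊆ RR B S := by
      intro q hq
      rw [mem_sdiff] at hq
      unfold RR
      rw [mem_filter, mem_sdiff]
      refine ⟨⟨mem_univ _, hq.2⟩, ?_⟩
      apply hH.2
      rw [mem_powersetCard]
      exact ⟨insert_subset hq.1 hSH, by rw [card_insert_of_notMem hq.2, hS]⟩
    have hsub2 : H ⊆ S ∪ RR B S := by
      intro q hq
      by_cases h : q ∈ S
      · exact mem_union_left _ h
      · exact mem_union_right _ (hsub (mem_sdiff.2 ⟨hq, h⟩))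
    exact eq_of_subset_of_card_le hsub2 (by rw [hH6, hH.1.2])
  · rintro rfl
    refine ⟨?_, subset_union_left⟩
    unfold hexads
    rw [mem_filter, mem_powersetCard]
    refine ⟨⟨subset_univ _, hH6⟩, ?_⟩
    intro Q hQ
    rw [mem_powersetCard] at hQ
    obtain ⟨S', hS'Q, hS'⟩ := Finset.exists_subset_card_eq (s := Q) (n := 3) (by omega)
    have hg := good_all B hB h3 hint (S ∪ RR B S) S' (hS'Q.trans hQ.1) hS' _ S hgoodS rfl
    obtain ⟨q, hq⟩ : ∃ q, q ∈ Q \ S' := by
      have : 0 < (Q \ S').card := by rw [card_sdiff_of_subset hS'Q]; omega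
      exact card_pos.1 this
    rw [mem_sdiff] at hq
    have hQq : insert q S' = Q := by
      apply eq_of_subset_of_card_le
      · exact insert_subset hq.1 hS'Q
      · rw [card_insert_of_notMem hq.2, hS', hQ.2]
    rw [← hQq]
    exact hg.2.2 q (mem_sdiff.2 ⟨hQ.1 hq.1, hq.2⟩)

end Pool.Agent.TH413.QS
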